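import Pool.Agent.Helper50.UK.Assembly

/-!
# Every shadow with n vertices has at least 2 ^ (sqrt n - 1/4) unknot diagrams
-/

set_option autoImplicit false

namespace Pool.Agent.Results.MP_6f3cb1_gt.ManyUnknots

open Pool.Agent.Helper50.UK

theorem result (n : ℕ) (S : Shadow n) :
    (∀ V : Finset (Fin n), S.MaxNonCrossing V →
      2 ^ ⌈(V.card : ℝ) + ((n : ℝ) - V.card) / (4 * V.card)⌉₊ ≤ S.unknots) ∧
    2 ^ ⌈√(n : ℝ) - 1 / 4⌉₊ ≤ S.unknots := by
  have hn : n ≠ 0 := by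
    rintro rfl
    exact IsEmpty.elim inferInstance (S.pass (0 : ZMod (2 * 0))).1
  haveI : NeZero n := ⟨hn⟩
  have key : ∀ V : Finset (Fin n), S.MaxNonCrossing V → V.Nonempty ∧ ∃ E : ℕ,
      (V.card : ℝ) + ((n : ℝ) - V.card) / (4 * V.card) ≤ E ∧ 2 ^ E ≤ S.unknots := by
    intro V hV
    have hne : V.Nonempty := by
      by_contra h
      rw [Finset.not_nonempty_iff_eq_empty] at h
      obtain ⟨v, hv, -⟩ := hV.maximal ⟨0, Nat.pos_of_ne_zero hn⟩ (by simp [h])
      simp [h] at hv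
    obtain ⟨E, h1, h2⟩ := main_count S hV hne
    have hk : 0 < V.card := hne.card_pos
    refine ⟨hne, E, ?_, h2⟩
    have h3 : (4 * (V.card : ℝ) ^ 2 + n) ≤ 4 * V.card * E + V.card := by exact_mod_cast h1
    have hk' : (0 : ℝ) < V.card := by exact_mod_cast hk
    have h4 : (V.card : ℝ) + ((n : ℝ) - V.card) / (4 * V.card)
        = (4 * (V.card : ℝ) ^ 2 + n - V.card) / (4 * V.card) := by
      field_simp; ring
    rw [h4, div_le_iff₀ (by positivity)]
    linarith
  constructor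
  · intro V hV
    obtain ⟨-, E, h1, h2⟩ := key V hV
    exact (Nat.pow_le_pow_right (by norm_num) (Nat.ceil_le.2 h1)).trans h2
  · obtain ⟨V, hV, hne⟩ := S.toCode.exists_maxNonCrossing
    obtain ⟨-, E, h1, h2⟩ := key V hV
    have hk' : (0 : ℝ) < V.card := by exact_mod_cast hne.card_pos
    refine (Nat.pow_le_pow_right (by norm_num) (Nat.ceil_le.2 (le_trans ?_ h1))).trans h2
    have hs : √(n : ℝ) ^ 2 = n := Real.sq_sqrt (Nat.cast_nonneg n)
    have h4 : (V.card : ℝ) + ((n : ℝ) - V.card) / (4 * V.card) - (√(n : ℝ) - 1 / 4)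
        = (2 * V.card - √(n : ℝ)) ^ 2 / (4 * V.card) := by
      field_simp
      nlinarith [hs]
    have h5 : 0 ≤ (2 * V.card - √(n : ℝ)) ^ 2 / (4 * V.card) := by positivity
    linarith

end Pool.Agent.Results.MP_6f3cb1_gt.ManyUnknots
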